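import Pool.Agent.MWGN.StmtsB

/-!
# MWGN, row GLS: exchange, simple letters
-/

set_option autoImplicit false

namespace Pool.Agent.MWGN.H7

open Pool.Agent.Helper14_MV Pool.Agent.Helper2_MV Pool.Agent.MWGN
open Pool.Agent.MWK (pre Gw pre_append pre_append_mem)

theorem gls_aux (p U V R : List ℕ) (c s : ℕ) (hU : s ∉ U) (hV : s ∉ V) :
    nn (p ++ (V ++ (U ++ R))) c s = nn (p ++ (U ++ (V ++ R))) c s := by
  unfold nn
  by_cases hp : s ∈ p
  · rw [pre_append_mem hp, pre_append_mem hp]
  · rw [pre_append hp, pre_append hp, pre_append hV, pre_append hU, pre_append hU, pre_append hV]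
    simp only [List.count_append]
    omega

theorem gls : GlsStmt := by
  intro p X Y F G H U V hUV w w' hw hw' c s hs
  have hX : s ∉ X := by
    intro h
    have h1 := List.count_pos_iff.2 h
    rw [hw] at hs
    simp only [List.count_append] at hs
    rcases hUV with ⟨rfl, rfl⟩ | ⟨rfl, rfl⟩ <;> omega
  have hY : s ∉ Y := by
    intro h
    have h1 := List.count_pos_iff.2 h
    rw [hw] at hs
    simp only [List.count_append] at hs
    rcases hUV with ⟨rfl, rfl⟩ | ⟨rfl, rfl⟩ <;> omega
  rw [hw, hw']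
  rcases hUV with ⟨rfl, rfl⟩ | ⟨rfl, rfl⟩
  · exact gls_aux p _ _ _ c s hX hY
  · exact gls_aux p _ _ _ c s hY hX

end Pool.Agent.MWGN.H7
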